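import Mathlib
import Pool.Agent.N679.GB.Glu2

set_option autoImplicit false

namespace Pool.Agent.T9h25.WS

open Finset Filter

open Pool.Agent.N679.PD
open Pool.Agent.N679.SD (split adm_shift bad_ev)
open Pool.Agent.N679.GB (cls_card')
open Pool.Agent.Y827.GS (cntN Adf)

/-- a greedy covering by intervals of small density, up to `U` -/
theorem cover1 {P : ℤ → Prop} [DecidablePred P] {ρ : ℝ} (hρ : 0 ≤ ρ) {R U : ℕ}
    (h : ∀ u : ℕ, R ≤ u → u + R ≤ U → ∃ R' : ℕ, 1 ≤ R' ∧ R' ≤ R ∧
      (((range R').filter (fun n : ℕ => P (u + n))).card : ℝ) < ρ * R') :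
    ∀ L u : ℕ, R ≤ u → u + L ≤ U → (((range L).filter (fun n : ℕ => P (u + n))).card : ℝ) ≤ ρ * L + R := by
  intro L
  induction L using Nat.strong_induction_on with
  | _ L ih =>
    intro u hu hU
    rcases le_or_gt L R with hL | hL
    · have h1 : ((range L).filter (fun n : ℕ => P (u + n))).card ≤ L := by
        refine (card_filter_le _ _).trans ?_
        rw [card_range]
      have h2 : (((range L).filter (fun n : ℕ => P (u + n))).card : ℝ) ≤ R := by exact_mod_cast h1.trans hL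
      have h3 : 0 ≤ ρ * L := by positivity
      linarith
    · obtain ⟨R', hR1, hR2, hlt⟩ := h u hu (by omega)
      have h1 := ih (L - R') (by omega) (u + R') (by omega) (by omega)
      have h2 : ((range L).filter (fun n : ℕ => P (u + n))).card ≤
          ((range R').filter (fun n : ℕ => P (u + n))).card +
            ((range (L - R')).filter (fun n : ℕ => P (((u + R' : ℕ) : ℤ) + n))).card := by
        have h3 : (range L).filter (fun n : ℕ => P (u + n)) ⊆ (range R').filter (fun n : ℕ => P (u + n)) ∪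
            ((range (L - R')).filter (fun n : ℕ => P (((u + R' : ℕ) : ℤ) + n))).image (fun n => R' + n) := by
          intro n hn
          obtain ⟨h4, h5⟩ := mem_filter.1 hn
          rw [mem_range] at h4
          rw [mem_union]
          rcases lt_or_ge n R' with h6 | h6
          · exact Or.inl (mem_filter.2 ⟨mem_range.2 h6, h5⟩)
          · right
            rw [mem_image]
            refine ⟨n - R', mem_filter.2 ⟨mem_range.2 (by omega), ?_⟩, by omega⟩
            have h7 : ((u + R' : ℕ) : ℤ) + ((n - R' : ℕ) : ℤ) = u + n := by push_cast [h6]; ring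
            rw [h7]
            exact h5
        exact (card_le_card h3).trans ((card_union_le _ _).trans (add_le_add_right card_image_le _))
      have h3 : (((range L).filter (fun n : ℕ => P (u + n))).card : ℝ) ≤
          (((range R').filter (fun n : ℕ => P (u + n))).card : ℝ) +
            (((range (L - R')).filter (fun n : ℕ => P (((u + R' : ℕ) : ℤ) + n))).card : ℝ) := by
        exact_mod_cast h2
      have h4 : ((L - R' : ℕ) : ℝ) = (L : ℝ) - R' := by
        rw [Nat.cast_sub (by omega)]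
      rw [h4] at h1
      have h5 : ρ * ((L : ℝ) - R') = ρ * L - ρ * R' := by ring
      rw [h5] at h1
      linarith

theorem cover2 {P : ℤ → Prop} [DecidablePred P] {ρ : ℝ} (hρ : 0 ≤ ρ) {R U : ℕ}
    (h : ∀ u : ℕ, R ≤ u → u + R ≤ U → ∃ R' : ℕ, 1 ≤ R' ∧ R' ≤ R ∧
      (((range R').filter (fun n : ℕ => P (u + n))).card : ℝ) < ρ * R') (L u : ℕ) (hU : u + L ≤ U) :
    (((range L).filter (fun n : ℕ => P (u + n))).card : ℝ) ≤ ρ * L + 2 * R := by
  rcases le_or_gt R u with hu | hu
  · have := cover1 hρ h L u hu hU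
    have hR : (0 : ℝ) ≤ R := Nat.cast_nonneg _
    linarith
  rcases le_or_gt L R with hL | hL
  · have h1 : ((range L).filter (fun n : ℕ => P (u + n))).card ≤ L := by
      refine (card_filter_le _ _).trans ?_
      rw [card_range]
    have h2 : (((range L).filter (fun n : ℕ => P (u + n))).card : ℝ) ≤ R := by exact_mod_cast h1.trans hL
    have h3 : 0 ≤ ρ * L := by positivity
    have hR : (0 : ℝ) ≤ R := Nat.cast_nonneg _
    linarith
  · have h1 := cover1 hρ h (L - R) (u + R) (by omega) (by omega)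
    have h2 : ((range L).filter (fun n : ℕ => P (u + n))).card ≤ R +
          ((range (L - R)).filter (fun n : ℕ => P (((u + R : ℕ) : ℤ) + n))).card := by
      have h3 : (range L).filter (fun n : ℕ => P (u + n)) ⊆ range R ∪
          ((range (L - R)).filter (fun n : ℕ => P (((u + R : ℕ) : ℤ) + n))).image (fun n => R + n) := by
        intro n hn
        obtain ⟨h4, h5⟩ := mem_filter.1 hn
        rw [mem_range] at h4
        rw [mem_union]
        rcases lt_or_ge n R with h6 | h6
        · exact Or.inl (mem_range.2 h6)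
        · right
          rw [mem_image]
          refine ⟨n - R, mem_filter.2 ⟨mem_range.2 (by omega), ?_⟩, by omega⟩
          have h7 : ((u + R : ℕ) : ℤ) + ((n - R : ℕ) : ℤ) = u + n := by push_cast [h6]; ring
          rw [h7]
          exact h5
      refine (card_le_card h3).trans ((card_union_le _ _).trans ?_)
      rw [card_range]
      exact add_le_add_right card_image_le _
    have h3 : (((range L).filter (fun n : ℕ => P (u + n))).card : ℝ) ≤ R +
          (((range (L - R)).filter (fun n : ℕ => P (((u + R : ℕ) : ℤ) + n))).card : ℝ) := by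
      exact_mod_cast h2
    have h4 : ((L - R : ℕ) : ℝ) ≤ (L : ℝ) := by exact_mod_cast Nat.sub_le _ _
    have h5 := mul_le_mul_of_nonneg_left h4 hρ
    linarith

open Classical in
/-- a class in which there are windows, all of whose initial segments have large density; with scales -/
theorem dens3 {d N N₀ C : ℕ} (hN : 1 ≤ N) (h2 : 2 ∣ N) (hdN : d ∣ N) (hN₀ : N₀ ∣ N) (r : ℤ)
    (G : ℕ → ℤ → Prop) (hG : ∀ x a, G x a → Adm a d) (ρ ρ' : ℝ) (hρ' : 0 ≤ ρ') (hρ : ρ' < ρ)
    (h : ∀ L : ℕ, ∃ x A H : ℕ, L ≤ x ∧ L ≤ H ∧ C * (A + H) ≤ x ∧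
      (((Ioc (A : ℤ) (A + H)).filter (fun a : ℤ => (N₀ : ℤ) ∣ a - r ∧ G x a)).card : ℝ) <
        (1 - ρ) * (((Ioc (A : ℤ) (A + H)).filter (fun a : ℤ => (N₀ : ℤ) ∣ a - r ∧ Adm a d)).card : ℝ)) :
    ∃ α : ℤ, 0 ≤ α ∧ α < N ∧ Adm α d ∧ ∀ R : ℕ, ∃ x u : ℕ, R ≤ x ∧ R ≤ u ∧ C * (N * (u + R)) ≤ x + C * N ∧
      ∀ R' : ℕ, 1 ≤ R' → R' ≤ R →
      ρ' * R' ≤ (((range R').filter (fun n : ℕ => ¬ G x (α + N * ((u : ℤ) + n)))).card : ℝ) := by
  by_contra hcon
  push Not at hcon
  have hdN' : (d : ℤ) ∣ N := by exact_mod_cast hdN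
  have hN₀' : (N₀ : ℤ) ∣ N := by exact_mod_cast hN₀
  have hN0 : (0 : ℤ) < N := by exact_mod_cast hN
  have hex : ∀ α : ℕ, ∃ R : ℕ, α < N → Adm α d → ∀ x u : ℕ, R ≤ x → R ≤ u → C * (N * (u + R)) ≤ x + C * N →
      ∃ R' : ℕ, 1 ≤ R' ∧ R' ≤ R ∧
      (((range R').filter (fun n : ℕ => ¬ G x (α + N * ((u : ℤ) + n)))).card : ℝ) < ρ' * R' := by
    intro α
    by_cases hα : α < N ∧ Adm α d
    · obtain ⟨R, hR⟩ := hcon α (by positivity) (by exact_mod_cast hα.1) hα.2
      exact ⟨R, fun _ _ => hR⟩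
    · exact ⟨0, fun h1 h2 => absurd ⟨h1, h2⟩ hα⟩
  choose R hR using hex
  set Rm : ℕ := ∑ α ∈ range N, R α with hRm
  obtain ⟨W, hW⟩ := exists_nat_gt ((2 * Rm : ℝ) / (ρ - ρ'))
  obtain ⟨x, A₀, H, hx, hH, hAx, hlt⟩ := h (Rm + N * (W + 1))
  set A : ℤ := (A₀ : ℤ) with hA
  set ad : Finset ℤ := (Ioc A (A + H)).filter (fun a : ℤ => (N₀ : ℤ) ∣ a - r ∧ Adm a d) with had
  set bd : Finset ℤ := (Ioc A (A + H)).filter (fun a : ℤ => (N₀ : ℤ) ∣ a - r ∧ Adm a d ∧ ¬ G x a) with hbd
  set gd : Finset ℤ := (Ioc A (A + H)).filter (fun a : ℤ => (N₀ : ℤ) ∣ a - r ∧ G x a) with hgd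
  have hsum : gd.card + bd.card = ad.card := by
    rw [← Finset.card_filter_add_card_filter_not (s := ad) (fun a => G x a)]
    congr 2
    · rw [had, hgd, filter_filter]
      apply filter_congr
      intro a _
      constructor
      · rintro ⟨h1, h3⟩; exact ⟨⟨h1, hG x a h3⟩, h3⟩
      · rintro ⟨⟨h1, _⟩, h3⟩; exact ⟨h1, h3⟩
    · rw [had, hbd, filter_filter]
      apply filter_congr
      intro a _
      tauto
  -- the class of `α`
  have hcl : ∀ α ∈ range N, (N₀ : ℤ) ∣ α - r → Adm α d →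
      ((bd.filter (fun a => (N : ℤ) ∣ a - α)).card : ℝ) ≤ ρ' * ((ad.filter (fun a => (N : ℤ) ∣ a - α)).card : ℝ) + 2 * R α ∧
      W < (ad.filter (fun a => (N : ℤ) ∣ a - α)).card := by
    intro α hα hc1 hc2
    have hα' := mem_range.1 hα
    obtain ⟨u, L, hL, hu, hP⟩ := cls_card' N hN α A H
    have h1 : (bd.filter (fun a => (N : ℤ) ∣ a - α)).card =
        ((range L).filter (fun n : ℕ => ¬ G x (α + N * (u + n)))).card := by
      refine Eq.trans ?_ ((hP (fun a => ¬ G x a)).trans ?_)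
      · rw [hbd, filter_filter]
        congr 1
        ext a
        simp only [mem_filter]
        constructor
        · rintro ⟨h5, ⟨_, _, h3⟩, h4⟩
          exact ⟨h5, h4, h3⟩
        · rintro ⟨h5, h4, h3⟩
          refine ⟨h5, ⟨?_, adm_shift h2 hdN' h4 hc2, h3⟩, h4⟩
          have := dvd_add (hN₀'.trans h4) hc1
          rwa [sub_add_sub_cancel] at this
      · congr 1
        ext n
        simp only [mem_filter]
    have h3 : (ad.filter (fun a => (N : ℤ) ∣ a - α)).card = L := by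
      refine Eq.trans ?_ ((hP (fun _ => True)).trans ?_)
      · rw [had, filter_filter]
        congr 1
        ext a
        simp only [mem_filter]
        constructor
        · rintro ⟨h5, _, h4⟩
          exact ⟨h5, h4, trivial⟩
        · rintro ⟨h5, h4, _⟩
          refine ⟨h5, ⟨?_, adm_shift h2 hdN' h4 hc2⟩, h4⟩
          have := dvd_add (hN₀'.trans h4) hc1
          rwa [sub_add_sub_cancel] at this
      · simp
    have hRα : R α ≤ Rm := Finset.single_le_sum (f := R) (fun _ _ => Nat.zero_le _) hα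
    have h5 : N * (W + 1) < N * (L + 1) := by
      have : N * (W + 1) ≤ H := le_trans (Nat.le_add_left _ _) hH
      exact lt_of_le_of_lt this hL
    have h6 : W < L := by
      have := lt_of_mul_lt_mul_left h5 (Nat.zero_le _)
      omega
    -- the position is nonnegative
    have hu2 : (-1 : ℤ) < u := by
      have h5 : (α : ℤ) < N := by exact_mod_cast hα'
      have h7 : (0 : ℤ) ≤ A := by rw [hA]; exact Nat.cast_nonneg _
      have h6 : (N : ℤ) * (-1) < N * u := by linarith
      exact lt_of_mul_lt_mul_left h6 hN0.le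
    obtain ⟨u', rfl⟩ := Int.eq_ofNat_of_zero_le (by omega : 0 ≤ u)
    -- the last element
    have hlast : (N : ℤ) * (u' + L) ≤ A + H + N := by
      obtain ⟨P0, hP0⟩ : ∃ P0 : ℤ → Prop, ∀ a, P0 a ↔ ¬ a ≤ A + H := ⟨_, fun _ => Iff.rfl⟩
      have h8 := hP P0
      have h9 := h8.symm.trans (card_eq_zero.2 (filter_eq_empty_iff.2
        (fun a ha hc => (hP0 a).1 hc.2 (mem_Ioc.1 ha).2)))
      rw [card_eq_zero, filter_eq_empty_iff] at h9
      have h9 := not_not.1 (fun h => h9 (mem_range.2 (by omega : L - 1 < L)) ((hP0 _).2 h))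
      have h10 : ((L - 1 : ℕ) : ℤ) = L - 1 := by
        have : 1 ≤ L := by omega
        push_cast [this]
        ring
      rw [h10] at h9
      have h11 : (0 : ℤ) ≤ α := Nat.cast_nonneg _
      have h12 : (N : ℤ) * (u' + L) = N * (u' + (L - 1)) + N := by ring
      linarith
    have hlast' : N * (u' + L) ≤ A₀ + H + N := by
      rw [hA] at hlast
      exact_mod_cast hlast
    rw [h1, h3]
    refine ⟨?_, h6⟩
    exact cover2 (P := fun s => ¬ G x (α + N * s)) hρ' (R := R α) (U := u' + L) (fun v hv hvU =>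
      hR α hα' hc2 x v (by omega) hv (by
        calc C * (N * (v + R α)) ≤ C * (A₀ + H + N) :=
              Nat.mul_le_mul_left _ ((Nat.mul_le_mul_left _ hvU).trans hlast')
          _ = C * (A₀ + H) + C * N := by ring
          _ ≤ x + C * N := Nat.add_le_add_right hAx _)) L u' le_rfl
  have hzero : ∀ α ∈ range N, ¬ ((N₀ : ℤ) ∣ α - r ∧ Adm α d) →
      ad.filter (fun a => (N : ℤ) ∣ a - α) = ∅ := by
    intro α _ hc
    rw [filter_eq_empty_iff]
    intro a ha hd
    rw [had, mem_filter] at ha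
    apply hc
    have hd' : (N : ℤ) ∣ α - a := by
      rw [← neg_sub]
      exact hd.neg_right
    refine ⟨?_, adm_shift h2 hdN' hd' ha.2.2⟩
    have := dvd_add (hN₀'.trans hd') ha.2.1
    rwa [sub_add_sub_cancel] at this
  have hsub : bd ⊆ ad := by
    intro a ha
    rw [hbd, mem_filter] at ha
    rw [had, mem_filter]
    exact ⟨ha.1, ha.2.1, ha.2.2.1⟩
  have hle : (bd.card : ℝ) ≤ ρ' * ad.card + 2 * Rm := by
    rw [split N hN bd, split N hN ad, hRm]
    push_cast
    rw [mul_sum, mul_sum, ← Finset.sum_add_distrib]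
    apply Finset.sum_le_sum
    intro α hα
    by_cases hc : (N₀ : ℤ) ∣ α - r ∧ Adm α d
    · exact (hcl α hα hc.1 hc.2).1
    · have h1 := hzero α hα hc
      have h3 : bd.filter (fun a => (N : ℤ) ∣ a - α) = ∅ := by
        rw [← subset_empty, ← h1]
        exact filter_subset_filter _ hsub
      rw [h1, h3, card_empty]
      have : (0 : ℝ) ≤ 2 * R α := by positivity
      simp only [Nat.cast_zero, mul_zero, zero_add]
      exact this
  have h8 : ((gd.card + bd.card : ℕ) : ℝ) = ad.card := by exact_mod_cast hsum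
  push_cast at h8
  -- there is an admissible class
  have hne : ∃ α ∈ range N, (N₀ : ℤ) ∣ α - r ∧ Adm α d := by
    by_contra hno
    push Not at hno
    have h9 : ad.card = 0 := by
      rw [split N hN ad]
      apply Finset.sum_eq_zero
      intro α hα
      rw [hzero α hα (fun hc => hno α hα hc.1 hc.2), card_empty]
    rw [h9, Nat.cast_zero, mul_zero] at hlt
    exact absurd hlt (not_lt.2 (Nat.cast_nonneg _))
  obtain ⟨α, hα, hc1, hc2⟩ := hne
  have h10 := (hcl α hα hc1 hc2).2
  have h11 : (W : ℝ) < ad.card := by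
    exact_mod_cast h10.trans_le (card_le_card (filter_subset _ _))
  have h12 : (2 * Rm : ℝ) < (ρ - ρ') * ad.card := by
    rw [div_lt_iff₀ (by linarith)] at hW
    have h13 : (W : ℝ) * (ρ - ρ') < ad.card * (ρ - ρ') := mul_lt_mul_of_pos_right h11 (by linarith)
    linarith
  linarith

/-- the limit set -/
theorem limset3 {ι : Type} {Q : ℕ → ι → Prop} (hQ : ∀ R R' i, R' ≤ R → Q R i → Q R' i)
    {P : ι → ℤ → Prop} [∀ i s, Decidable (P i s)] {ρ : ℝ}
    (h : ∀ R : ℕ, ∃ i : ι, Q R i ∧ ∀ R' : ℕ, 1 ≤ R' → R' ≤ R →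
      ρ * R' ≤ (((range R').filter (fun n : ℕ => P i n)).card : ℝ)) :
    ∃ U : Set ℤ, (∀ L₀ : ℕ, ∃ L : ℕ, L₀ ≤ L ∧ ∃ u : ℤ,
      ρ * L ≤ ({n : ℕ | n < L ∧ u + (n : ℤ) ∈ U}.ncard : ℝ)) ∧ (∀ s ∈ U, 0 ≤ s) ∧
      ∀ R : ℕ, ∃ i : ι, Q R i ∧ ∀ s ∈ U, s ≤ R → P i s := by
  choose u hu hd using h
  set F : Ultrafilter ℕ := hyperfilter ℕ with hF
  refine ⟨{s : ℤ | 0 ≤ s ∧ ∀ᶠ R in (F : Filter ℕ), P (u R) s}, ?_, fun s hs => hs.1, ?_⟩
  · intro L₀
    refine ⟨max L₀ 1, le_max_left _ _, 0, ?_⟩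
    set L := max L₀ 1 with hL
    have h1 : ∀ᶠ R in (F : Filter ℕ), ∀ n ∈ range L,
        ((n : ℤ) ∈ {s : ℤ | 0 ≤ s ∧ ∀ᶠ R in (F : Filter ℕ), P (u R) s} ↔ P (u R) n) := by
      rw [Filter.eventually_all_finset]
      intro n _
      by_cases hn : ∀ᶠ R in (F : Filter ℕ), P (u R) n
      · filter_upwards [hn] with R hR
        exact ⟨fun _ => hR, fun _ => ⟨Nat.cast_nonneg _, hn⟩⟩
      · have hn' : ∀ᶠ R in (F : Filter ℕ), ¬ P (u R) n := Ultrafilter.eventually_not.2 hn
        filter_upwards [hn'] with R hR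
        exact ⟨fun h => absurd h.2 hn, fun h => absurd h hR⟩
    have h2 : ∀ᶠ R in (F : Filter ℕ), L ≤ R := Nat.hyperfilter_le_atTop (eventually_ge_atTop L)
    obtain ⟨R, hR1, hR2⟩ := (h1.and h2).exists
    refine (hd R L (le_max_right _ _) hR2).trans ?_
    rw [Nat.cast_le, ← Set.ncard_coe_finset]
    apply Set.ncard_le_ncard
    · intro n hn
      rw [mem_coe, mem_filter] at hn
      refine ⟨mem_range.1 hn.1, ?_⟩
      rw [zero_add]
      exact (hR1 n hn.1).2 hn.2
    · exact (Set.finite_Iio L).subset (fun n hn => hn.1)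
  · intro R₀
    have h1 : ∀ᶠ R in (F : Filter ℕ), ∀ n ∈ range (R₀ + 1),
        ((n : ℤ) ∈ {s : ℤ | 0 ≤ s ∧ ∀ᶠ R in (F : Filter ℕ), P (u R) s} → P (u R) n) := by
      rw [Filter.eventually_all_finset]
      intro n _
      by_cases hn : ∀ᶠ R in (F : Filter ℕ), P (u R) n
      · filter_upwards [hn] with R hR _
        exact hR
      · exact Eventually.of_forall fun R h => absurd h.2 hn
    have h2 : ∀ᶠ R in (F : Filter ℕ), R₀ ≤ R := Nat.hyperfilter_le_atTop (eventually_ge_atTop R₀)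
    obtain ⟨R, hR1, hR2⟩ := (h1.and h2).exists
    refine ⟨u R, hQ R R₀ _ hR2 (hu R), fun s hs hsR => ?_⟩
    obtain ⟨n, rfl⟩ := Int.eq_ofNat_of_zero_le hs.1
    exact hR1 n (mem_range.2 (by omega)) hs

open Classical in
theorem glue3 {n K : ℕ} (many : ∀ A : ℕ, ∀ᶠ N : ℕ in atTop,
    ∀ f : Bool × Bool × Fin n → Fin K → ℤ × ℤ,
    Function.Injective (fun x : (Bool × Bool × Fin n) × Fin K => f x.1 x.2) →
    (∀ g i, Adf A N (f g i)) →
    (∀ p : ℕ, p.Prime → p ≤ 4 * n * K → ∃ r : ℤ, ∀ g i, ¬ (p : ℤ) ∣ (f g i).1 * r + (f g i).2) →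
    ∃ (S : Finset (Bool × Bool × Fin n)) (c : Bool × Bool × Fin n → Fin K),
      (10 / 9 : ℝ) * n ≤ S.card ∧ ∀ g ∈ S, ∀ g' ∈ S,
        (N : ℝ) / (Real.log N) ^ (4 * n * K + 2) ≤ (cntN {f g (c g), f g' (c g')} N : ℝ))
    {N : ℕ} (hN : 1 ≤ N) (h2 : 2 ∣ N) (hNp : ∀ p : ℕ, p.Prime → p ≤ 4 * n * K → p ∣ N)
    {α : ℤ} (hα : Adm α (1 : ℕ)) (X Z : Bool → Fin n → Fin K → ℤ)
    (hX : ∀ a i k a' i' k', X a i k = X a' i' k' → a = a' ∧ i = i' ∧ k = k')
    (hZ : ∀ a i k a' i' k', Z a i k = Z a' i' k' → a = a' ∧ i = i' ∧ k = k')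
    (hXV : ∀ i k k', ¬ Oft (4 * n * K + 3) (N * (X true i k' - X false i k)) 1)
    (hZV : ∀ i k k', ¬ Oft (4 * n * K + 3) (N * (Z true i k' - Z false i k)) 1)
    (hU : ∀ R : ℕ, ∃ x u : ℕ, R ≤ x ∧ R ≤ u ∧ 100 * (N * (u + R)) ≤ x + 100 * N ∧
        ∀ S S' : Bool → Finset (Fin n), Disjoint (S false) (S true) → Disjoint (S' false) (S' true) →
        (10 / 9 : ℝ) * n ≤ ((S false).card + (S true).card + (S' false).card + (S' true).card : ℕ) →
        ∃ a a', ∃ i ∈ S a, ∃ j ∈ S' a', ∀ k k',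
          (cnt (α + N * ((u : ℤ) + (Z a' j k' - X a i k))) 1 x : ℝ) <
            (x : ℝ) / (Real.log x) ^ (4 * n * K + 3)) :
    False := by
  obtain ⟨y0, _, hl1, hl2⟩ := exists_y N 1 hN α hα 0
  have hN0 : (0 : ℤ) < N := by exact_mod_cast hN
  have h2N : (2 : ℤ) ∣ N := by exact_mod_cast h2
  obtain ⟨r0, hr0⟩ : ∃ r0 : ℤ, r0 = α + ((1 : ℕ) : ℤ) * y0 := ⟨_, rfl⟩
  rw [← hr0, Nat.mul_one] at hl2
  have hr0' : r0 = α + y0 := by rw [hr0]; push_cast; ring
  -- a bound for the constant terms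
  obtain ⟨W, hW⟩ : ∃ W : ℕ, ∀ a i k a' j k', |y0 + N * X a i k| ≤ W ∧ |r0 + N * Z a' j k'| ≤ W := by
    obtain ⟨M, hM⟩ := (Set.finite_range (fun x : (Bool × Fin n × Fin K) × (Bool × Fin n × Fin K) =>
      |y0 + N * X x.1.1 x.1.2.1 x.1.2.2| + |r0 + N * Z x.2.1 x.2.2.1 x.2.2.2|)).bddAbove
    refine ⟨M.toNat, fun a i k a' j k' => ?_⟩
    have h := (hM ⟨((a, i, k), (a', j, k')), rfl⟩).trans (Int.self_le_toNat M)
    simp only at h
    have h3 := abs_nonneg (y0 + N * X a i k)
    have h4 := abs_nonneg (r0 + N * Z a' j k')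
    refine ⟨by linarith, by linarith⟩
  have hadm1 : ∀ t : ℤ, Adm (N * t) 1 := fun t => ⟨by simp, by rw [mul_one]; exact h2N.mul_right _⟩
  -- the bad differences
  have e1 : ∀ᶠ x : ℕ in atTop, ∀ i k k',
      (cnt (N * (X true i k' - X false i k)) 1 x : ℝ) < (x : ℝ) / (Real.log x) ^ (4 * n * K + 3) := by
    simp only [Filter.eventually_all]
    exact fun i k k' => bad_ev (hadm1 _) (hXV i k k')
  have e2 : ∀ᶠ x : ℕ in atTop, ∀ i k k',
      (cnt (N * (Z true i k' - Z false i k)) 1 x : ℝ) < (x : ℝ) / (Real.log x) ^ (4 * n * K + 3) := by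
    simp only [Filter.eventually_all]
    exact fun i k k' => bad_ev (hadm1 _) (hZV i k k')
  have ht1 : Tendsto (fun x : ℕ => x - W) atTop atTop := tendsto_sub_atTop_nat W
  have ht2 : Tendsto (fun x : ℕ => 2 * x) atTop atTop :=
    tendsto_atTop_mono (fun x => show x ≤ 2 * x by omega) tendsto_id
  obtain ⟨R₀, hR₀⟩ := eventually_atTop.1 (((ht1.eventually (many 1)).and (e1.and (ht2.eventually e2))).and
    ((scale (C := 4 * n * K + 2) (s := 1) (w := W) le_rfl).and
      (ht2.eventually (scale (C := 4 * n * K + 2) (s := 2) (w := 2 * W) (by norm_num)))))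
  obtain ⟨x, u, hRx, hRu, hux, hU⟩ := hU (R₀ + 400 * W + 400 * N + 400)
  obtain ⟨⟨hmany, hx1, hx2⟩, ⟨hsc1, _⟩, ⟨hsc2, _⟩⟩ := hR₀ x (by omega)
  rw [Nat.div_one] at hsc1
  have hdiv : (2 * x - 2 * W) / 2 = x - W := by omega
  rw [hdiv] at hsc2
  obtain ⟨Nx, hNx⟩ : ∃ Nx : ℕ, Nx = x - W := ⟨_, rfl⟩
  rw [← hNx] at hmany hsc1 hsc2
  have hNxe : Nx + W = x := by omega
  have hW1 : 300 * W + 300 * N + 300 ≤ Nx := by omega
  have huN : 100 * (N * u) ≤ Nx + W + 100 * N := by
    rw [hNxe]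
    refine le_trans ?_ hux
    exact Nat.mul_le_mul_left _ (Nat.mul_le_mul_left _ (Nat.le_add_right _ _))
  have huN' : 10 * (N * u) ≤ Nx := by omega
  have hu2W : 2 * W + 1 ≤ u := by omega
  have hNu : u ≤ N * u := Nat.le_mul_of_pos_left _ hN
  -- the forms
  set f : Bool × Bool × Fin n → Fin K → ℤ × ℤ := fun g k =>
    if g.1 = true then ((1 : ℤ), N * u + (r0 + N * Z g.2.1 g.2.2 k)) else (1, y0 + N * X g.2.1 g.2.2 k) with hf
  have hf1 : ∀ a i k, f (false, a, i) k = (1, y0 + N * X a i k) := fun a i k => rfl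
  have hf2 : ∀ a i k, f (true, a, i) k = ((1 : ℤ), N * u + (r0 + N * Z a i k)) := fun a i k => rfl
  have hcoN : ∀ g k (p : ℕ), p.Prime → (p : ℤ) ∣ N → ¬ (p : ℤ) ∣ (f g k).2 := by
    rintro ⟨s, a, i⟩ k p hp hpN hdv
    cases s
    · rw [hf1] at hdv
      exact gcd_ne hl1 hp ((dvd_add_left (hpN.mul_right _)).1 hdv) hpN
    · rw [hf2] at hdv
      have h3 := (dvd_add_right (hpN.mul_right _)).1 hdv
      exact gcd_ne hl2 hp ((dvd_add_left (hpN.mul_right _)).1 h3) hpN
  have hNxr : (300 * W + 300 * N + 300 : ℝ) ≤ Nx := by exact_mod_cast hW1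
  have hWr : (0 : ℝ) ≤ W := Nat.cast_nonneg _
  have hNr : (0 : ℝ) ≤ N := Nat.cast_nonneg _
  have hadf : ∀ g k, Adf 1 Nx (f g k) := by
    rintro ⟨s, a, i⟩ k
    obtain ⟨hw1, hw2⟩ := hW a i k a i k
    have hw1' := abs_le.1 hw1
    have hw2' := abs_le.1 hw2
    cases s
    · rw [hf1]
      refine ⟨one_ne_zero, by norm_num, ?_, isCoprime_one_left, ?_⟩
      · show |y0 + N * X a i k| ≤ Nx
        refine hw1.trans ?_
        exact_mod_cast (by omega : W ≤ Nx)
      · intro t ht1 ht2
        show (Nx : ℝ) / 24 ≤ ((1 : ℤ) : ℝ) * t + ((y0 + N * X a i k : ℤ) : ℝ)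
        have h3 : -(W : ℝ) ≤ ((y0 + N * X a i k : ℤ) : ℝ) := by exact_mod_cast hw1'.1
        push_cast at h3 ⊢
        linarith
    · rw [hf2]
      refine ⟨one_ne_zero, by norm_num, ?_, isCoprime_one_left, ?_⟩
      · show |(N : ℤ) * u + (r0 + N * Z a i k)| ≤ Nx
        have h3 : (10 * (N * u) : ℤ) ≤ Nx := by exact_mod_cast huN'
        have h4 : (300 * W + 300 * N + 300 : ℤ) ≤ Nx := by exact_mod_cast hW1
        have h5 : (0 : ℤ) ≤ N * u := by positivity
        have h6 : (0 : ℤ) ≤ W := Nat.cast_nonneg _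
        rw [abs_le]
        constructor
        · linarith [hw2'.1]
        · linarith [hw2'.2]
      · intro t ht1 ht2
        show (Nx : ℝ) / 24 ≤ ((1 : ℤ) : ℝ) * t + (((N : ℤ) * u + (r0 + N * Z a i k) : ℤ) : ℝ)
        have h3 : -(W : ℝ) ≤ ((r0 + N * Z a i k : ℤ) : ℝ) := by exact_mod_cast hw2'.1
        have h5 : (0 : ℝ) ≤ (N : ℝ) * u := by positivity
        push_cast at h3 ⊢
        linarith
  have hcross : ∀ a i k a' i' k', y0 + N * X a i k ≠ N * u + (r0 + N * Z a' i' k') := by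
    intro a i k a' i' k' h
    obtain ⟨hw1, hw2⟩ := hW a i k a' i' k'
    have hw1' := (abs_le.1 hw1).2
    have hw2' := (abs_le.1 hw2).1
    have h3 : (2 * W + 1 : ℤ) ≤ N * u := by exact_mod_cast hu2W.trans hNu
    linarith
  have hinj : Function.Injective (fun x : (Bool × Bool × Fin n) × Fin K => f x.1 x.2) := by
    rintro ⟨⟨s, a, i⟩, k⟩ ⟨⟨s', a', i'⟩, k'⟩ h
    simp only at h
    cases s <;> cases s'
    · rw [hf1, hf1, Prod.mk.injEq] at h
      have h1 : (N : ℤ) * X a i k = N * X a' i' k' := by linarith [h.2]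
      obtain ⟨rfl, rfl, rfl⟩ := hX _ _ _ _ _ _ (mul_left_cancel₀ hN0.ne' h1)
      rfl
    · exfalso
      rw [hf1, hf2, Prod.mk.injEq] at h
      exact hcross _ _ _ _ _ _ h.2
    · exfalso
      rw [hf1, hf2, Prod.mk.injEq] at h
      exact hcross _ _ _ _ _ _ h.2.symm
    · rw [hf2, hf2, Prod.mk.injEq] at h
      have h1 : (N : ℤ) * Z a i k = N * Z a' i' k' := by linarith [h.2]
      obtain ⟨rfl, rfl, rfl⟩ := hZ _ _ _ _ _ _ (mul_left_cancel₀ hN0.ne' h1)
      rfl
  obtain ⟨S, cc, hS, hcl⟩ := hmany f hinj hadf (fun p hp hle => ⟨0, fun g i hdv => by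
    rw [mul_zero, zero_add] at hdv
    exact hcoN g i p hp (by exact_mod_cast hNp p hp hle) hdv⟩)
  have hNxZ : (Nx : ℤ) + W = x := by exact_mod_cast hNxe
  obtain ⟨a, a', i, hi, j, hj, hbad⟩ := hU (fun a => univ.filter (fun i => (false, a, i) ∈ S))
    (fun a => univ.filter (fun i => (true, a, i) ∈ S))
    (by
      rw [Finset.disjoint_left]
      intro i hi hi'
      have h1 := (mem_filter.1 hi).2
      have h3 := (mem_filter.1 hi').2
      have h4 := hcl _ h1 _ h3
      have h5 : cntN {f (false, false, i) (cc (false, false, i)), f (false, true, i) (cc (false, true, i))} Nx ≤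
          cnt ((f (false, true, i) (cc (false, true, i))).2 - 1 * (f (false, false, i) (cc (false, false, i))).2) 1 x := by
        refine cnt_ge (s := 1) (s' := 1) (by norm_num) (by norm_num)
          (F := {f (false, false, i) (cc (false, false, i)), f (false, true, i) (cc (false, true, i))})
          (by rw [hf1]; simp) (by rw [hf1, hf1]; simp) ?_
        obtain ⟨hw1, _⟩ := hW false i (cc (false, false, i)) true i (cc (false, true, i))
        have hw1' := abs_le.1 hw1
        rw [hf1]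
        simp only
        linarith [hw1'.2]
      have e : (f (false, true, i) (cc (false, true, i))).2 - 1 * (f (false, false, i) (cc (false, false, i))).2 =
          N * (X true i (cc (false, true, i)) - X false i (cc (false, false, i))) := by
        rw [hf1, hf1]; ring
      rw [e] at h5
      have h6 : (cntN {f (false, false, i) (cc (false, false, i)), f (false, true, i) (cc (false, true, i))} Nx : ℝ) ≤
          (cnt (N * (X true i (cc (false, true, i)) - X false i (cc (false, false, i)))) 1 x : ℝ) := by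
        exact_mod_cast h5
      exact absurd (hsc1.trans (h4.trans h6)) (not_le.2 (hx1 _ _ _)))
    (by
      rw [Finset.disjoint_left]
      intro i hi hi'
      have h1 := (mem_filter.1 hi).2
      have h3 := (mem_filter.1 hi').2
      have h4 := hcl _ h1 _ h3
      have h5 : cntN {f (true, false, i) (cc (true, false, i)), f (true, true, i) (cc (true, true, i))} Nx ≤
          cnt ((f (true, true, i) (cc (true, true, i))).2 - 1 * (f (true, false, i) (cc (true, false, i))).2) 1
            (2 * x) := by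
        refine cnt_ge (s := 1) (s' := 1) (by norm_num) (by norm_num)
          (F := {f (true, false, i) (cc (true, false, i)), f (true, true, i) (cc (true, true, i))})
          (by rw [hf2]; simp) (by rw [hf2, hf2]; simp) ?_
        obtain ⟨_, hw2⟩ := hW false i (cc (true, false, i)) false i (cc (true, false, i))
        have hw2' := abs_le.1 hw2
        rw [hf2]
        simp only
        have h7 : (10 * (N * u) : ℤ) ≤ Nx := by exact_mod_cast huN'
        have h8 : (0 : ℤ) ≤ Nx := Nat.cast_nonneg _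
        have h9 : (300 * W + 300 * N + 300 : ℤ) ≤ Nx := by exact_mod_cast hW1
        have h10 : (0 : ℤ) ≤ N := Nat.cast_nonneg _
        have h11 : (0 : ℤ) ≤ W := Nat.cast_nonneg _
        push_cast
        linarith [hw2'.2]
      have e : (f (true, true, i) (cc (true, true, i))).2 - 1 * (f (true, false, i) (cc (true, false, i))).2 =
          N * (Z true i (cc (true, true, i)) - Z false i (cc (true, false, i))) := by
        rw [hf2, hf2]; ring
      rw [e] at h5
      have h6 : (cntN {f (true, false, i) (cc (true, false, i)), f (true, true, i) (cc (true, true, i))} Nx : ℝ) ≤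
          (cnt (N * (Z true i (cc (true, true, i)) - Z false i (cc (true, false, i)))) 1 (2 * x) : ℝ) := by
        exact_mod_cast h5
      exact absurd (hsc2.trans (h4.trans h6)) (not_le.2 (hx2 _ _ _)))
    (by
      refine hS.trans (le_of_eq ?_)
      congr 1
      have h1 : S.card = ∑ g : Bool × Bool × Fin n, if g ∈ S then 1 else 0 := by
        rw [← card_filter]
        congr 1
        ext g
        simp
      rw [h1, Fintype.sum_prod_type]
      simp only [Fintype.sum_prod_type, Fintype.sum_bool, card_filter]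
      ring)
  have h1 := (mem_filter.1 hi).2
  have h3 := (mem_filter.1 hj).2
  have h4 := hcl _ h1 _ h3
  have h5 : cntN {f (false, a, i) (cc (false, a, i)), f (true, a', j) (cc (true, a', j))} Nx ≤
      cnt ((f (true, a', j) (cc (true, a', j))).2 - 1 * (f (false, a, i) (cc (false, a, i))).2) 1 x := by
    refine cnt_ge (s := 1) (s' := 1) (by norm_num) (by norm_num)
      (F := {f (false, a, i) (cc (false, a, i)), f (true, a', j) (cc (true, a', j))})
      (by rw [hf1]; simp) (by rw [hf1, hf2]; simp) ?_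
    obtain ⟨hw1, _⟩ := hW a i (cc (false, a, i)) a' j (cc (true, a', j))
    have hw1' := abs_le.1 hw1
    rw [hf1]
    simp only
    linarith [hw1'.2]
  have e : (f (true, a', j) (cc (true, a', j))).2 - 1 * (f (false, a, i) (cc (false, a, i))).2 =
      α + N * ((u : ℤ) + (Z a' j (cc (true, a', j)) - X a i (cc (false, a, i)))) := by
    rw [hf1, hf2]
    simp only
    rw [hr0']
    ring
  rw [e] at h5
  have h6 := hbad (cc (false, a, i)) (cc (true, a', j))
  have h8 : (cntN {f (false, a, i) (cc (false, a, i)), f (true, a', j) (cc (true, a', j))} Nx : ℝ) ≤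
      (cnt (α + N * ((u : ℤ) + (Z a' j (cc (true, a', j)) - X a i (cc (false, a, i))))) 1 x : ℝ) := by
    exact_mod_cast h5
  linarith [hsc1.trans (h4.trans h8)]

end Pool.Agent.T9h25.WS
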