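import Mathlib
import Pool.Agent.Y877.GqE

set_option autoImplicit false

namespace Pool.Agent.T9h25.CM

open Finset Filter

open Classical in
/-- one multiplier for all elements of a set -/
theorem common {K : ℕ} {ε : ℝ} (q x : ℕ) (G C : ℕ → Prop)
    (H : ∀ F : Finset ℕ,
      (∀ k, 1 ≤ k → k ≤ K → K * (F.filter (fun n => k * n ∉ F)).card ≤ F.card) →
      (∀ n ∈ F, 1 ≤ n ∧ K * (q ^ 2 * n) ≤ x) →
      (5 / 9 - ε) * (F.card : ℝ) ≤ ((F.filter (fun n => G n)).card : ℝ) ∧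
      ((F.filter (fun n => ¬ C n)).card : ℝ) ≤ ε * F.card)
    {N : ℕ} (hN : 1 ≤ N)
    (hinv : ∀ k, 1 ≤ k → k ≤ K → K * (N.divisors.filter (fun n => k * n ∉ N.divisors)).card ≤ N.divisors.card)
    (A : Finset ℕ) (hA : ∀ b ∈ A, 1 ≤ b ∧ K * N * (q ^ 2 * b) ≤ x) (hm : ε * A.card < 1) :
    ∃ d : ℕ, d ∣ N ∧ (5 / 9 - ε * (A.card + 1)) * A.card ≤ ((A.filter (fun b => G (d * b))).card : ℝ) ∧
      ∀ b ∈ A, C (d * b) := by
  set D := N.divisors with hD
  have hDpos : 0 < D.card := card_pos.2 ⟨1, Nat.one_mem_divisors.2 (by omega)⟩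
  have hDr : (0 : ℝ) < D.card := by exact_mod_cast hDpos
  have key : ∀ b ∈ A, (5 / 9 - ε) * (D.card : ℝ) ≤ ((D.filter (fun d => G (d * b))).card : ℝ) ∧
      ((D.filter (fun d => ¬ C (d * b))).card : ℝ) ≤ ε * D.card := by
    intro b hb
    obtain ⟨hb1, hbx⟩ := hA b hb
    have hinj : Function.Injective (fun d : ℕ => d * b) := fun u v h => Nat.eq_of_mul_eq_mul_right hb1 h
    have hmem : ∀ d, d * b ∈ D.image (fun d => d * b) ↔ d ∈ D := fun d => by
      rw [mem_image]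
      constructor
      · rintro ⟨u, hu, h⟩
        rwa [← hinj h]
      · intro h
        exact ⟨d, h, rfl⟩
    have hc : (D.image (fun d => d * b)).card = D.card := card_image_of_injective _ hinj
    have hfil : ∀ (P : ℕ → Prop) (_ : DecidablePred P) (_ : DecidablePred (fun d => P (d * b))),
        ((D.image (fun d => d * b)).filter P).card = (D.filter (fun d => P (d * b))).card := by
      intro P _ _
      rw [filter_image, card_image_of_injective _ hinj]
      congr!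
    obtain ⟨h1, h2⟩ := H (D.image (fun d => d * b)) (fun k hk hk' => by
        have e : ∀ d, (k * (d * b) ∉ D.image (fun d => d * b)) ↔ (k * d ∉ D) := fun d => by
          rw [← mul_assoc, hmem]
        have e2 : D.filter (fun d => k * (d * b) ∉ D.image (fun d => d * b)) = D.filter (fun d => k * d ∉ D) :=
          filter_congr fun d _ => e d
        rw [hc, hfil _ _ inferInstance, e2]
        exact hinv k hk hk') (fun n hn => by
        obtain ⟨d, hd, rfl⟩ := mem_image.1 hn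
        have hd1 : 1 ≤ d := Nat.pos_of_mem_divisors hd
        have hdN : d ≤ N := Nat.divisor_le hd
        refine ⟨Nat.mul_pos hd1 hb1, le_trans ?_ hbx⟩
        calc K * (q ^ 2 * (d * b)) = K * d * (q ^ 2 * b) := by ring
          _ ≤ K * N * (q ^ 2 * b) := by gcongr)
    rw [hc, hfil _ _ inferInstance] at h1 h2
    exact ⟨h1, h2⟩
  -- the divisors with the second property for all `b`
  set D' := D.filter (fun d => ∀ b ∈ A, C (d * b)) with hD'
  have hbad : ((D.filter (fun d => ¬ ∀ b ∈ A, C (d * b))).card : ℝ) ≤ ε * A.card * D.card := by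
    have h1 : D.filter (fun d => ¬ ∀ b ∈ A, C (d * b)) ⊆ A.biUnion (fun b => D.filter (fun d => ¬ C (d * b))) := by
      intro d hd
      obtain ⟨hd1, hd2⟩ := mem_filter.1 hd
      push Not at hd2
      obtain ⟨b, hb, hb'⟩ := hd2
      exact mem_biUnion.2 ⟨b, hb, mem_filter.2 ⟨hd1, hb'⟩⟩
    have h2 : ((D.filter (fun d => ¬ ∀ b ∈ A, C (d * b))).card : ℝ) ≤
        ∑ b ∈ A, ((D.filter (fun d => ¬ C (d * b))).card : ℝ) := by
      exact_mod_cast (card_le_card h1).trans card_biUnion_le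
    refine h2.trans ((sum_le_sum fun b hb => (key b hb).2).trans ?_)
    rw [sum_const, nsmul_eq_mul]
    exact le_of_eq (by ring)
  have hsum : (D'.card : ℝ) + ((D.filter (fun d => ¬ ∀ b ∈ A, C (d * b))).card : ℝ) = D.card := by
    exact_mod_cast card_filter_add_card_filter_not (s := D) (fun d => ∀ b ∈ A, C (d * b))
  have hD'pos : (0 : ℝ) < D'.card := by
    have : ε * A.card * D.card < 1 * D.card := mul_lt_mul_of_pos_right hm hDr
    linarith
  have hD'ne : D'.Nonempty := card_pos.1 (by exact_mod_cast hD'pos)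
  -- the average
  have hdouble : ∑ d ∈ D, ((A.filter (fun b => G (d * b))).card : ℝ) =
      ∑ b ∈ A, ((D.filter (fun d => G (d * b))).card : ℝ) := by
    have := Finset.sum_card_bipartiteAbove_eq_sum_card_bipartiteBelow (s := D) (t := A) (fun d b => G (d * b))
    simp only [bipartiteAbove, bipartiteBelow] at this
    exact_mod_cast this
  have hall : (5 / 9 - ε) * D.card * A.card ≤ ∑ d ∈ D, ((A.filter (fun b => G (d * b))).card : ℝ) := by
    rw [hdouble]
    have : ∑ b ∈ A, ((5 / 9 - ε) * (D.card : ℝ)) ≤ ∑ b ∈ A, ((D.filter (fun d => G (d * b))).card : ℝ) :=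
      sum_le_sum fun b hb => (key b hb).1
    rw [sum_const, nsmul_eq_mul] at this
    linarith
  have hsplit : ∑ d ∈ D, ((A.filter (fun b => G (d * b))).card : ℝ) =
      ∑ d ∈ D', ((A.filter (fun b => G (d * b))).card : ℝ) +
        ∑ d ∈ D.filter (fun d => ¬ ∀ b ∈ A, C (d * b)), ((A.filter (fun b => G (d * b))).card : ℝ) :=
    (sum_filter_add_sum_filter_not D _ _).symm
  have hbad2 : ∑ d ∈ D.filter (fun d => ¬ ∀ b ∈ A, C (d * b)), ((A.filter (fun b => G (d * b))).card : ℝ) ≤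
      ε * A.card * D.card * A.card := by
    have h1 : ∑ d ∈ D.filter (fun d => ¬ ∀ b ∈ A, C (d * b)), ((A.filter (fun b => G (d * b))).card : ℝ) ≤
        ∑ d ∈ D.filter (fun d => ¬ ∀ b ∈ A, C (d * b)), (A.card : ℝ) :=
      sum_le_sum fun d _ => by exact_mod_cast card_filter_le _ _
    rw [sum_const, nsmul_eq_mul] at h1
    refine h1.trans (mul_le_mul_of_nonneg_right hbad (Nat.cast_nonneg _))
  by_contra hcon
  push Not at hcon
  have hlt : ∀ d ∈ D', ((A.filter (fun b => G (d * b))).card : ℝ) < (5 / 9 - ε * (A.card + 1)) * A.card := by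
    intro d hd
    obtain ⟨hd1, hd2⟩ := mem_filter.1 hd
    by_contra hge
    obtain ⟨b, hb, hb'⟩ := hcon d (Nat.dvd_of_mem_divisors hd1) (not_lt.1 hge)
    exact hb' (hd2 b hb)
  have h3 : ∑ d ∈ D', ((A.filter (fun b => G (d * b))).card : ℝ) <
      ∑ d ∈ D', ((5 / 9 - ε * (A.card + 1)) * A.card : ℝ) := sum_lt_sum_of_nonempty hD'ne hlt
  rw [sum_const, nsmul_eq_mul] at h3
  -- the constant is nonnegative
  have hpos : 0 ≤ (5 / 9 - ε * (A.card + 1)) * (A.card : ℝ) := by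
    obtain ⟨d, hd⟩ := hD'ne
    exact (Nat.cast_nonneg _).trans (hlt d hd).le
  have h4 : (D'.card : ℝ) * ((5 / 9 - ε * (A.card + 1)) * A.card) ≤
      D.card * ((5 / 9 - ε * (A.card + 1)) * A.card) := by
    apply mul_le_mul_of_nonneg_right _ hpos
    exact_mod_cast card_filter_le _ _
  have e : (D.card : ℝ) * ((5 / 9 - ε * (A.card + 1)) * A.card) =
      (5 / 9 - ε) * D.card * A.card - ε * A.card * D.card * A.card := by ring
  linarith

open Classical in
theorem main (T M : ℕ) (hT : 1 ≤ T) (hTM : (18 / 5 : ℝ) * M < T) (m : Fin T → ℕ)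
    (hm : Function.Injective m) (R : ℕ) (ε : ℝ) (hε : 0 < ε) : ∃ N K : ℕ, 1 ≤ N ∧ 1 ≤ K ∧
    ∀ q : ℕ, 1 ≤ q → ∀ η : ℝ, 0 < η → ∀ᶠ x : ℕ in atTop, ∀ a : ℕ, a.Coprime q →
    ∀ A : Finset ℕ, A.card ≤ R → (∀ b ∈ A, 1 ≤ b ∧ K * (q ^ 2 * b) ≤ x) →
    ∃ d : ℕ, d ∣ N ∧
      (5 / 9 - ε) * A.card ≤ ((A.filter (fun b => (x : ℝ) ^ (1 - η) ≤
        Pool.Agent.TH899.UG.TD.prq 8 x q a (q * (d * b)))).card : ℝ) ∧
      ∀ b ∈ A, Pool.Agent.Y877.GQ.Clq m M η x q a (d * b) := by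
  obtain ⟨ε₀, hε₀, h1, h2⟩ : ∃ ε₀ : ℝ, 0 < ε₀ ∧ ε₀ * (R + 1) ≤ ε ∧ ε₀ * (R + 1) < 1 := by
    have hR : (0 : ℝ) < R + 1 := by positivity
    refine ⟨min ε (1 / 2) / (R + 1), by positivity, ?_, ?_⟩
    · rw [div_mul_cancel₀ _ hR.ne']
      exact min_le_left _ _
    · rw [div_mul_cancel₀ _ hR.ne']
      exact (min_le_right _ _).trans_lt (by norm_num)
  obtain ⟨K, hK, H⟩ := Pool.Agent.Y877.GQ.finF T M hT hTM m hm ε₀ hε₀
  obtain ⟨N, hN, hdiv⟩ := Pool.Agent.Y877.divisors_inv K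
  refine ⟨N, K * N, hN, Nat.mul_pos hK hN, fun q hq η hη => ?_⟩
  filter_upwards [H q hq η hη] with x hx a ha A hAR hA
  have hAr : (A.card : ℝ) ≤ R := by exact_mod_cast hAR
  obtain ⟨d, hd, h3, h4⟩ := common (K := K) (ε := ε₀) q x
    (fun n => (x : ℝ) ^ (1 - η) ≤ Pool.Agent.TH899.UG.TD.prq 8 x q a (q * n))
    (fun n => Pool.Agent.Y877.GQ.Clq m M η x q a n) (hx a ha) hN
    (fun k hk hk' => hdiv N hN dvd_rfl k hk hk') A hA (by nlinarith)
  refine ⟨d, hd, le_trans ?_ h3, h4⟩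
  apply mul_le_mul_of_nonneg_right _ (Nat.cast_nonneg _)
  nlinarith

end Pool.Agent.T9h25.CM
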